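import Mathlib.Tactic.ToAdditive
import Mathlib.Tactic.Common

/-! Names, formulas of set theory and the forcing relation (Kunen, Set Theory, VII 3.3). -/

namespace Pool.Agent.Forcing92

/-- `P`-names over the ground universe: a name is a small family of pairs (name, condition). -/
inductive Name (P : Type) : Type 1
  | mk (I : Type) (A : I → Name P) (c : I → P) : Name P

/-- `fEq le x y p`: the condition `p` forces `x = y`. -/
def fEq {P : Type} (le : P → P → Prop) : Name P → Name P → P → Prop
  | ⟨_, A, c⟩, ⟨_, B, d⟩, p =>
    (∀ i q, le q p → ∃ r, le r q ∧ (le r (c i) → ∃ j, le r (d j) ∧ fEq le (A i) (B j) r)) ∧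
    (∀ j q, le q p → ∃ r, le r q ∧ (le r (d j) → ∃ i, le r (c i) ∧ fEq le (A i) (B j) r))

/-- `fMem le x y p`: the condition `p` forces `x ∈ y`. -/
def fMem {P : Type} (le : P → P → Prop) (x : Name P) : Name P → P → Prop
  | ⟨_, B, d⟩, p => ∀ q, le q p → ∃ r, le r q ∧ ∃ j, le r (d j) ∧ fEq le (B j) x r

/-- Formulas of the language of set theory, with variables in `V`. -/
inductive Fml (V : Type 1) : Type 1
  | mem : V → V → Fml V
  | eq : V → V → Fml V
  | neg : Fml V → Fml V
  | and : Fml V → Fml V → Fml V
  | all : (V → Fml V) → Fml V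

/-- The forcing relation. -/
def Forces {P : Type} (le : P → P → Prop) : Fml (Name P) → P → Prop
  | .mem x y, p => fMem le x y p
  | .eq x y, p => fEq le x y p
  | .neg a, p => ∀ q, le q p → ¬ Forces le a q
  | .and a b, p => Forces le a p ∧ Forces le b p
  | .all f, p => ∀ x, Forces le (f x) p

namespace Fml

variable {V : Type 1}

def imp (a b : Fml V) : Fml V := neg (and a (neg b))
def or (a b : Fml V) : Fml V := imp (neg a) b
def iff (a b : Fml V) : Fml V := and (imp a b) (imp b a)
def ex (f : V → Fml V) : Fml V := neg (all fun x => neg (f x))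
def allIn (y : V) (f : V → Fml V) : Fml V := all fun x => imp (mem x y) (f x)
def exIn (y : V) (f : V → Fml V) : Fml V := ex fun x => and (mem x y) (f x)
/-- `x ⊆ y` -/
def sub (x y : V) : Fml V := allIn x fun z => mem z y
/-- `x = ∅` -/
def emp (x : V) : Fml V := all fun z => neg (mem z x)
/-- `w` is inductive -/
def ind (w : V) : Fml V :=
  and (exIn w emp) (allIn w fun x => exIn w fun y =>
    all fun z => iff (mem z y) (or (mem z x) (eq z x)))
/-- `w = ω` -/
def omega (w : V) : Fml V := and (ind w) (all fun z => imp (ind z) (sub w z))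
/-- `z = {a, b}` -/
def pair (a b z : V) : Fml V := all fun t => iff (mem t z) (or (eq t a) (eq t b))
/-- the Kuratowski pair `(n, O)` belongs to `s` -/
def app (s n O : V) : Fml V :=
  exIn s fun z => ex fun a => ex fun b => and (pair n n a) (and (pair n O b) (pair a b z))

end Fml

end Pool.Agent.Forcing92
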