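import Mathlib.Data.Nat.Basic
import Mathlib.Order.RelClasses
import Pool.Agent.Lib.helper92.ForcingDefs

/-! Basic facts on the forcing relation for an arbitrary preorder. -/

namespace Pool.Agent.Forcing92

class Pre {P : Type} (le : P → P → Prop) : Prop where
  refl : ∀ p, le p p
  trans : ∀ {p q r}, le p q → le q r → le p r

variable {P : Type} {le : P → P → Prop} [Pre le]

theorem lrefl (p : P) : le p p := Pre.refl p
theorem ltrans {p q r : P} (h : le p q) (h' : le q r) : le p r := Pre.trans h h'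

theorem fEq_mono {x y : Name P} {p q : P} (hq : le q p) (h : fEq le x y p) : fEq le x y q := by
  obtain ⟨I, A, c⟩ := x
  obtain ⟨J, B, d⟩ := y
  exact ⟨fun i r hr => h.1 i r (ltrans hr hq), fun j r hr => h.2 j r (ltrans hr hq)⟩

theorem fEq_dense {x y : Name P} {p : P} (h : ∀ q, le q p → ∃ r, le r q ∧ fEq le x y r) :
    fEq le x y p := by
  obtain ⟨I, A, c⟩ := x
  obtain ⟨J, B, d⟩ := y
  refine ⟨fun i q hq => ?_, fun j q hq => ?_⟩
  · obtain ⟨r, hr, h'⟩ := h q hq
    obtain ⟨s, hs, h''⟩ := h'.1 i r (lrefl r)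
    exact ⟨s, ltrans hs hr, h''⟩
  · obtain ⟨r, hr, h'⟩ := h q hq
    obtain ⟨s, hs, h''⟩ := h'.2 j r (lrefl r)
    exact ⟨s, ltrans hs hr, h''⟩

theorem fEq_refl (x : Name P) (p : P) : fEq le x x p := by
  induction x generalizing p with
  | mk I A c ih =>
    exact ⟨fun i q _ => ⟨q, lrefl q, fun h => ⟨i, h, ih i q⟩⟩,
      fun i q _ => ⟨q, lrefl q, fun h => ⟨i, h, ih i q⟩⟩⟩

omit [Pre le] in
theorem fEq_symm {x y : Name P} {p : P} (h : fEq le x y p) : fEq le y x p := by
  induction x generalizing y p with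
  | mk I A c ih =>
    obtain ⟨J, B, d⟩ := y
    refine ⟨fun j q hq => ?_, fun i q hq => ?_⟩
    · obtain ⟨r, hr, h'⟩ := h.2 j q hq
      exact ⟨r, hr, fun hd => let ⟨i, hi, he⟩ := h' hd; ⟨i, hi, ih i he⟩⟩
    · obtain ⟨r, hr, h'⟩ := h.1 i q hq
      exact ⟨r, hr, fun hd => let ⟨j, hj, he⟩ := h' hd; ⟨j, hj, ih i he⟩⟩

theorem fEq_trans {x y z : Name P} {p : P} (h : fEq le x y p) (h' : fEq le y z p) :
    fEq le x z p := by
  induction x generalizing y z p with
  | mk I A c ih =>
    obtain ⟨J, B, d⟩ := y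
    obtain ⟨K, C, e⟩ := z
    refine ⟨fun i q hq => ?_, fun k q hq => ?_⟩
    · obtain ⟨r, hr, h1⟩ := h.1 i q hq
      by_cases hc : le r (c i)
      · obtain ⟨j, hj, he⟩ := h1 hc
        obtain ⟨s, hs, h2⟩ := h'.1 j r (ltrans hr hq)
        obtain ⟨k, hk, he'⟩ := h2 (ltrans hs hj)
        exact ⟨s, ltrans hs hr, fun _ => ⟨k, hk, ih i (fEq_mono hs he) he'⟩⟩
      · exact ⟨r, hr, fun h => absurd h hc⟩
    · obtain ⟨r, hr, h1⟩ := h'.2 k q hq
      by_cases hc : le r (e k)
      · obtain ⟨j, hj, he⟩ := h1 hc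
        obtain ⟨s, hs, h2⟩ := h.2 j r (ltrans hr hq)
        obtain ⟨i, hi, he'⟩ := h2 (ltrans hs hj)
        exact ⟨s, ltrans hs hr, fun _ => ⟨i, hi, ih i he' (fEq_mono hs he)⟩⟩
      · exact ⟨r, hr, fun h => absurd h hc⟩

theorem fMem_mono {x y : Name P} {p q : P} (hq : le q p) (h : fMem le x y p) :
    fMem le x y q := by
  obtain ⟨J, B, d⟩ := y
  exact fun r hr => h r (ltrans hr hq)

theorem fMem_dense {x y : Name P} {p : P} (h : ∀ q, le q p → ∃ r, le r q ∧ fMem le x y r) :
    fMem le x y p := by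
  obtain ⟨J, B, d⟩ := y
  intro q hq
  obtain ⟨r, hr, h'⟩ := h q hq
  obtain ⟨s, hs, h''⟩ := h' r (lrefl r)
  exact ⟨s, ltrans hs hr, h''⟩

theorem fMem_congr_left {x x' y : Name P} {p : P} (he : fEq le x x' p) (h : fMem le x y p) :
    fMem le x' y p := by
  obtain ⟨J, B, d⟩ := y
  intro q hq
  obtain ⟨r, hr, j, hj, h'⟩ := h q hq
  exact ⟨r, hr, j, hj, fEq_trans h' (fEq_mono (ltrans hr hq) he)⟩

theorem fMem_congr_right {x y y' : Name P} {p : P} (he : fEq le y y' p) (h : fMem le x y p) :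
    fMem le x y' p := by
  obtain ⟨J, B, d⟩ := y
  obtain ⟨K, C, e⟩ := y'
  intro q hq
  obtain ⟨r, hr, j, hj, h'⟩ := h q hq
  obtain ⟨s, hs, h2⟩ := he.1 j r (ltrans hr hq)
  obtain ⟨k, hk, he'⟩ := h2 (ltrans hs hj)
  exact ⟨s, ltrans hs hr, k, hk, fEq_trans (fEq_symm he') (fEq_mono hs h')⟩

theorem fMem_mk {I : Type} {A : I → Name P} {c : I → P} {p : P} (i : I) (h : le p (c i)) :
    fMem le (A i) (Name.mk I A c) p :=
  fun q hq => ⟨q, lrefl q, i, ltrans hq h, fEq_refl _ _⟩

theorem fMem_mk_iff {I : Type} {A : I → Name P} {c : I → P} {x : Name P} {p : P} :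
    fMem le x (Name.mk I A c) p ↔
      ∀ q, le q p → ∃ r, le r q ∧ ∃ j, le r (c j) ∧ fEq le (A j) x r := Iff.rfl

theorem fEq_of_ext {x y : Name P} {p : P}
    (h : ∀ z q, le q p → (fMem le z x q ↔ fMem le z y q)) : fEq le x y p := by
  obtain ⟨I, A, c⟩ := x
  obtain ⟨J, B, d⟩ := y
  refine ⟨fun i q hq => ?_, fun j q hq => ?_⟩
  · by_cases hc : le q (c i)
    · obtain ⟨r, hr, j, hj, he⟩ := (h (A i) q hq).1 (fMem_mk i hc) q (lrefl q)
      exact ⟨r, hr, fun _ => ⟨j, hj, fEq_symm he⟩⟩
    · exact ⟨q, lrefl q, fun h => absurd h hc⟩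
  · by_cases hc : le q (d j)
    · obtain ⟨r, hr, i, hi, he⟩ := (h (B j) q hq).2 (fMem_mk j hc) q (lrefl q)
      exact ⟨r, hr, fun _ => ⟨i, hi, he⟩⟩
    · exact ⟨q, lrefl q, fun h => absurd h hc⟩

theorem Forces.mono {a : Fml (Name P)} {p q : P} (hq : le q p) (h : Forces le a p) :
    Forces le a q := by
  induction a generalizing p q with
  | mem x y => exact fMem_mono hq h
  | eq x y => exact fEq_mono hq h
  | neg a _ => exact fun r hr => h r (ltrans hr hq)
  | and a b iha ihb => exact ⟨iha hq h.1, ihb hq h.2⟩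
  | all f ih => exact fun x => ih x hq (h x)

theorem Forces.dense {a : Fml (Name P)} {p : P}
    (h : ∀ q, le q p → ∃ r, le r q ∧ Forces le a r) : Forces le a p := by
  induction a generalizing p with
  | mem x y => exact fMem_dense h
  | eq x y => exact fEq_dense h
  | neg a _ =>
    intro q hq ha
    obtain ⟨r, hr, h'⟩ := h q hq
    exact h' r (lrefl r) (ha.mono hr)
  | and a b iha ihb =>
    exact ⟨iha fun q hq => let ⟨r, hr, h'⟩ := h q hq; ⟨r, hr, h'.1⟩,
      ihb fun q hq => let ⟨r, hr, h'⟩ := h q hq; ⟨r, hr, h'.2⟩⟩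
  | all f ih => exact fun x => ih x fun q hq => let ⟨r, hr, h'⟩ := h q hq; ⟨r, hr, h' x⟩

open Fml

omit [Pre le] in
theorem forces_mem {x y : Name P} {p : P} : Forces le (mem x y) p ↔ fMem le x y p := Iff.rfl
omit [Pre le] in
theorem forces_eq {x y : Name P} {p : P} : Forces le (eq x y) p ↔ fEq le x y p := Iff.rfl
omit [Pre le] in
theorem forces_neg {a : Fml (Name P)} {p : P} :
    Forces le (neg a) p ↔ ∀ q, le q p → ¬ Forces le a q := Iff.rfl
omit [Pre le] in
theorem forces_and {a b : Fml (Name P)} {p : P} :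
    Forces le (and a b) p ↔ Forces le a p ∧ Forces le b p := Iff.rfl
omit [Pre le] in
theorem forces_all {f : Name P → Fml (Name P)} {p : P} :
    Forces le (all f) p ↔ ∀ x, Forces le (f x) p := Iff.rfl

theorem forces_imp {a b : Fml (Name P)} {p : P} :
    Forces le (imp a b) p ↔ ∀ q, le q p → Forces le a q → Forces le b q := by
  constructor
  · intro h q hq ha
    refine Forces.dense fun r hr => ?_
    by_contra hn
    exact h r (ltrans hr hq) ⟨ha.mono hr, fun s hs hb => hn ⟨s, hs, hb⟩⟩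
  · intro h q hq hab
    exact hab.2 q (lrefl q) (h q hq hab.1)

theorem forces_or {a b : Fml (Name P)} {p : P} :
    Forces le (or a b) p ↔ ∀ q, le q p → ∃ r, le r q ∧ (Forces le a r ∨ Forces le b r) := by
  rw [Fml.or, forces_imp]
  constructor
  · intro h q hq
    by_cases ha : ∃ r, le r q ∧ Forces le a r
    · obtain ⟨r, hr, ha⟩ := ha
      exact ⟨r, hr, Or.inl ha⟩
    · exact ⟨q, lrefl q, Or.inr (h q hq fun r hr h' => ha ⟨r, hr, h'⟩)⟩
  · intro h q hq hna
    refine Forces.dense fun r hr => ?_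
    obtain ⟨s, hs, h'⟩ := h r (ltrans hr hq)
    rcases h' with h' | h'
    · exact absurd h' (hna s (ltrans hs hr))
    · exact ⟨s, hs, h'⟩

theorem forces_iff {a b : Fml (Name P)} {p : P} :
    Forces le (iff a b) p ↔ ∀ q, le q p → (Forces le a q ↔ Forces le b q) := by
  rw [Fml.iff, forces_and, forces_imp, forces_imp]
  exact ⟨fun h q hq => ⟨h.1 q hq, h.2 q hq⟩,
    fun h => ⟨fun q hq => (h q hq).1, fun q hq => (h q hq).2⟩⟩

theorem forces_ex {f : Name P → Fml (Name P)} {p : P} :
    Forces le (ex f) p ↔ ∀ q, le q p → ∃ r, le r q ∧ ∃ x, Forces le (f x) r := by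
  constructor
  · intro h q hq
    by_contra hn
    exact h q hq fun x r hr hx => hn ⟨r, hr, x, hx⟩
  · intro h q hq hn
    obtain ⟨r, hr, x, hx⟩ := h q hq
    exact hn x r hr hx

theorem forces_ex_of {f : Name P → Fml (Name P)} {p : P} (x : Name P) (h : Forces le (f x) p) :
    Forces le (ex f) p :=
  forces_ex.2 fun q hq => ⟨q, lrefl q, x, h.mono hq⟩

theorem forces_allIn {y : Name P} {f : Name P → Fml (Name P)} {p : P} :
    Forces le (allIn y f) p ↔ ∀ x q, le q p → fMem le x y q → Forces le (f x) q := by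
  simp only [allIn, forces_all, forces_imp, forces_mem]

theorem forces_exIn {y : Name P} {f : Name P → Fml (Name P)} {p : P} :
    Forces le (exIn y f) p ↔
      ∀ q, le q p → ∃ r, le r q ∧ ∃ x, fMem le x y r ∧ Forces le (f x) r := by
  simp only [exIn, forces_ex, forces_and, forces_mem]

theorem forces_exIn_of {y : Name P} {f : Name P → Fml (Name P)} {p : P} (x : Name P)
    (hx : fMem le x y p) (h : Forces le (f x) p) : Forces le (exIn y f) p :=
  forces_ex_of x ⟨hx, h⟩

theorem forces_sub {x y : Name P} {p : P} :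
    Forces le (sub x y) p ↔ ∀ z q, le q p → fMem le z x q → fMem le z y q := by
  simp only [sub, forces_allIn, forces_mem]

omit [Pre le] in
theorem forces_emp {x : Name P} {p : P} :
    Forces le (emp x) p ↔ ∀ z q, le q p → ¬ fMem le z x q := Iff.rfl

theorem forces_decide (a : Fml (Name P)) (p : P) :
    ∃ q, le q p ∧ (Forces le a q ∨ Forces le (neg a) q) := by
  by_cases ha : ∃ r, le r p ∧ Forces le a r
  · obtain ⟨r, hr, ha⟩ := ha
    exact ⟨r, hr, Or.inl ha⟩
  · exact ⟨p, lrefl p, Or.inr fun r hr h' => ha ⟨r, hr, h'⟩⟩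

theorem not_forces {a : Fml (Name P)} {p : P} (h : ¬ Forces le a p) :
    ∃ q, le q p ∧ Forces le (neg a) q := by
  by_contra hn
  refine h (Forces.dense fun q hq => ?_)
  by_contra hn'
  exact hn ⟨q, hq, fun r hr ha => hn' ⟨r, hr, ha⟩⟩

/-- similarity of formulas up to a relation on variables -/
inductive Sim {V : Type 1} (R : V → V → Prop) : Fml V → Fml V → Prop
  | mem {a b a' b' : V} : R a a' → R b b' → Sim R (mem a b) (mem a' b')
  | eq {a b a' b' : V} : R a a' → R b b' → Sim R (eq a b) (eq a' b')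
  | neg {a b : Fml V} : Sim R a b → Sim R (neg a) (neg b)
  | and {a b a' b' : Fml V} : Sim R a a' → Sim R b b' → Sim R (and a b) (and a' b')
  | all {f g : V → Fml V} : (∀ x, Sim R (f x) (g x)) → Sim R (all f) (all g)

theorem Sim.forces {p : P} {a b : Fml (Name P)} (h : Sim (fun x y => fEq le x y p) a b) :
    ∀ q, le q p → (Forces le a q ↔ Forces le b q) := by
  induction h with
  | mem h1 h2 =>
    intro q hq
    have h1' := fEq_mono hq h1
    have h2' := fEq_mono hq h2
    exact ⟨fun h => fMem_congr_right h2' (fMem_congr_left h1' h),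
      fun h => fMem_congr_right (fEq_symm h2') (fMem_congr_left (fEq_symm h1') h)⟩
  | eq h1 h2 =>
    intro q hq
    have h1' := fEq_mono hq h1
    have h2' := fEq_mono hq h2
    exact ⟨fun h => fEq_trans (fEq_symm h1') (fEq_trans h h2'),
      fun h => fEq_trans h1' (fEq_trans h (fEq_symm h2'))⟩
  | neg _ ih =>
    intro q hq
    exact ⟨fun h r hr hb => h r hr ((ih r (ltrans hr hq)).2 hb),
      fun h r hr ha => h r hr ((ih r (ltrans hr hq)).1 ha)⟩
  | and _ _ ih1 ih2 =>
    intro q hq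
    exact and_congr (ih1 q hq) (ih2 q hq)
  | all _ ih =>
    intro q hq
    exact forall_congr' fun x => ih x q hq

section SimLemmas

variable {V : Type 1} {R : V → V → Prop}

theorem Sim.imp {a b a' b' : Fml V} (h : Sim R a a') (h' : Sim R b b') :
    Sim R (imp a b) (imp a' b') := .neg (.and h (.neg h'))
theorem Sim.or {a b a' b' : Fml V} (h : Sim R a a') (h' : Sim R b b') :
    Sim R (or a b) (or a' b') := .imp (.neg h) h'
theorem Sim.iff {a b a' b' : Fml V} (h : Sim R a a') (h' : Sim R b b') :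
    Sim R (iff a b) (iff a' b') := .and (.imp h h') (.imp h' h)
theorem Sim.ex {f g : V → Fml V} (h : ∀ x, Sim R (f x) (g x)) : Sim R (ex f) (ex g) :=
  .neg (.all fun x => .neg (h x))
theorem Sim.allIn (hR : ∀ x, R x x) {y y' : V} {f g : V → Fml V} (hy : R y y')
    (h : ∀ x, Sim R (f x) (g x)) : Sim R (allIn y f) (allIn y' g) :=
  .all fun x => .imp (.mem (hR x) hy) (h x)
theorem Sim.exIn (hR : ∀ x, R x x) {y y' : V} {f g : V → Fml V} (hy : R y y')
    (h : ∀ x, Sim R (f x) (g x)) : Sim R (exIn y f) (exIn y' g) :=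
  .ex fun x => .and (.mem (hR x) hy) (h x)
theorem Sim.sub (hR : ∀ x, R x x) {x x' y y' : V} (hx : R x x') (hy : R y y') :
    Sim R (sub x y) (sub x' y') := .allIn hR hx fun z => .mem (hR z) hy
theorem Sim.emp (hR : ∀ x, R x x) {x x' : V} (hx : R x x') : Sim R (emp x) (emp x') :=
  .all fun z => .neg (.mem (hR z) hx)
theorem Sim.pair (hR : ∀ x, R x x) {a a' b b' z z' : V} (ha : R a a') (hb : R b b')
    (hz : R z z') : Sim R (pair a b z) (pair a' b' z') :=
  .all fun t => .iff (.mem (hR t) hz) (.or (.eq (hR t) ha) (.eq (hR t) hb))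
theorem Sim.app (hR : ∀ x, R x x) {s s' n n' O O' : V} (hs : R s s') (hn : R n n')
    (hO : R O O') : Sim R (app s n O) (app s' n' O') :=
  .exIn hR hs fun z => .ex fun a => .ex fun b => .and (.pair hR hn hn (hR a))
    (.and (.pair hR hn hO (hR b)) (.pair hR (hR a) (hR b) (hR z)))

end SimLemmas

/-- check names of the natural numbers (`t` is the trivial condition) -/
def natName (t : P) : ℕ → Name P
  | n => Name.mk (Fin n) (fun i => natName t i) (fun _ => t)
decreasing_by exact i.2

omit [Pre le] in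
theorem natName_eq (t : P) (n : ℕ) :
    natName t n = Name.mk (Fin n) (fun i => natName t i) (fun _ => t) := by
  rw [natName]

/-- check name of `ω` -/
def omegaName (t : P) : Name P := Name.mk ℕ (natName t) (fun _ => t)

variable {t : P}

theorem natName_inj (ht : ∀ p, le p t) {n m : ℕ} {p : P}
    (h : fEq le (natName t n) (natName t m) p) : n = m := by
  induction n using Nat.strong_induction_on generalizing m p with
  | _ n ih =>
    rw [natName_eq t n, natName_eq t m] at h
    apply le_antisymm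
    · by_contra hlt
      push Not at hlt
      obtain ⟨r, -, h1⟩ := h.1 ⟨m, hlt⟩ p (lrefl p)
      obtain ⟨j, -, he⟩ := h1 (ht r)
      have := ih m hlt he
      have := j.2
      omega
    · by_contra hlt
      push Not at hlt
      obtain ⟨r, -, h1⟩ := h.2 ⟨n, hlt⟩ p (lrefl p)
      obtain ⟨i, -, he⟩ := h1 (ht r)
      have := ih i i.2 he
      have := i.2
      simp only at *
      omega

theorem fMem_natName (ht : ∀ p, le p t) {x : Name P} {n : ℕ} {p : P} :
    fMem le x (natName t n) p ↔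
      ∀ q, le q p → ∃ r, le r q ∧ ∃ j < n, fEq le (natName t j) x r := by
  rw [natName_eq t n, fMem_mk_iff]
  refine forall_congr' fun q => imp_congr_right fun _ => exists_congr fun r =>
    and_congr_right fun _ => ⟨?_, ?_⟩
  · rintro ⟨j, -, h⟩
    exact ⟨j, j.2, h⟩
  · rintro ⟨j, hj, h⟩
    exact ⟨⟨j, hj⟩, ht r, h⟩

theorem fMem_omegaName (ht : ∀ p, le p t) {x : Name P} {p : P} :
    fMem le x (omegaName t) p ↔
      ∀ q, le q p → ∃ r, le r q ∧ ∃ j, fEq le (natName t j) x r := by
  rw [omegaName, fMem_mk_iff]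
  simp only [ht, true_and]

theorem natName_mem_omega (ht : ∀ p, le p t) (n : ℕ) (p : P) :
    fMem le (natName t n) (omegaName t) p := fMem_mk (c := fun _ => t) n (ht p)

theorem forces_succ (ht : ∀ p, le p t) {x : Name P} {n : ℕ} {p : P}
    (h : fEq le (natName t n) x p) (z : Name P) (q : P) (hq : le q p) :
    fMem le z (natName t (n + 1)) q ↔ Forces le (or (mem z x) (eq z x)) q := by
  rw [forces_or, fMem_natName ht]
  constructor
  · intro h' r hr
    obtain ⟨s, hs, j, hj, he⟩ := h' r hr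
    have hsp : le s p := ltrans hs (ltrans hr hq)
    refine ⟨s, hs, ?_⟩
    rcases Nat.lt_succ_iff_lt_or_eq.1 hj with hj | rfl
    · left
      refine fMem_congr_right (fEq_mono hsp h) ?_
      exact (fMem_natName ht).2 fun u hu => ⟨u, lrefl u, j, hj, fEq_mono hu he⟩
    · right
      exact fEq_trans (fEq_symm he) (fEq_mono hsp h)
  · intro h' r hr
    obtain ⟨s, hs, h''⟩ := h' r hr
    have hsp : le s p := ltrans hs (ltrans hr hq)
    rcases h'' with h'' | h''
    · have := fMem_congr_right (fEq_symm (fEq_mono hsp h)) h''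
      obtain ⟨u, hu, j, hj, he⟩ := (fMem_natName ht).1 this s (lrefl s)
      exact ⟨u, ltrans hu hs, j, by omega, he⟩
    · exact ⟨s, hs, n, by omega, fEq_trans (fEq_mono hsp h) (fEq_symm h'')⟩

theorem forces_omega (ht : ∀ p, le p t) (p : P) : Forces le (omega (omegaName t)) p := by
  refine ⟨⟨forces_exIn_of (natName t 0) (natName_mem_omega ht 0 p) ?_, ?_⟩, ?_⟩
  · intro z q _ hz
    obtain ⟨r, -, j, hj, -⟩ := (fMem_natName ht).1 hz q (lrefl q)
    omega
  · refine forces_allIn.2 fun x q _ hx => forces_exIn.2 fun r hr => ?_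
    obtain ⟨s, hs, n, he⟩ := (fMem_omegaName ht).1 hx r hr
    exact ⟨s, hs, natName t (n + 1), natName_mem_omega ht _ _,
      fun z => forces_iff.2 fun u hu => forces_succ ht he z u hu⟩
  · intro z
    refine forces_imp.2 fun q _ hz => forces_sub.2 fun x r hr hx => ?_
    have key : ∀ n, fMem le (natName t n) z q := by
      intro n
      induction n with
      | zero =>
        refine fMem_dense fun s hs => ?_
        obtain ⟨u, hu, y, hy, he⟩ := forces_exIn.1 hz.1 s hs
        refine ⟨u, hu, fMem_congr_left (fEq_of_ext fun a v hv => ⟨fun h => ?_, fun h => ?_⟩) hy⟩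
        · exact absurd h (he a v hv)
        · obtain ⟨r, -, j, hj, -⟩ := (fMem_natName ht).1 h v (lrefl v)
          omega
      | succ n ih =>
        refine fMem_dense fun s hs => ?_
        obtain ⟨u, hu, y, hy, he⟩ :=
          forces_exIn.1 (forces_allIn.1 hz.2 _ q (lrefl q) ih) s hs
        refine ⟨u, hu, fMem_congr_left (fEq_of_ext fun a v hv => ?_) hy⟩
        rw [forces_succ ht (fEq_refl _ u) a v hv]
        exact forces_iff.1 (he a) v hv
    refine fMem_dense fun s hs => ?_
    obtain ⟨u, hu, n, he⟩ := (fMem_omegaName ht).1 hx s hs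
    exact ⟨u, hu, fMem_congr_left he (fMem_mono (ltrans hu (ltrans hs hr)) (key n))⟩

end Pool.Agent.Forcing92
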